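import Mathlib
import Pool.Agent.Q147.SuslinSpace

namespace Pool.Agent.Results.MP_6bb66b_gt.FromFreeSuslinTree

open Set Filter Topology Pool.Agent.Q147.QFun Pool.Agent.Q147.SuslinSpace

/-- If there is a free Suslin tree, then there is an uncountable open Whyburn Hausdorff
semi-regular space `X` with `Q_p(X,ℝ)` Fréchet-Urysohn; `X` is even regular and first-countable. -/
theorem result (T : Type) [PartialOrder T] (lev : T → Ordinal.{0}) (hT : FreeSuslin T lev) :
    ∃ (X : Type) (_ : TopologicalSpace X), T2Space X ∧ SemiRegular X ∧ OpenWhyburn X ∧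
      RegularSpace X ∧ FirstCountableTopology X ∧ ¬ Countable X ∧ FU (Qp X) := by
  refine ⟨Sp lev, inferInstance, t2 hT, semiRegular hT, openWhyburn hT, regular hT,
    firstCountable hT, ?_, fu hT⟩
  intro h
  apply uncountable hT
  exact Function.Injective.countable (f := fun t : T => (⟨t⟩ : Sp lev)) (by
    intro a b hab
    cases hab
    rfl)

end Pool.Agent.Results.MP_6bb66b_gt.FromFreeSuslinTree
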